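import Pool.Agent.Helper92.Orb.Packets2
import Pool.Agent.Helper10.Abund.MassOn

/-! MP_5ff3c6_ag, packet P3: finite mass over a fundamental set. -/

open scoped Manifold ContDiff ENNReal Topology
open MeasureTheory

namespace Pool.Agent.Helper36.Orb

open Pool.Agent.Helper16.Abund Pool.Agent.Helper92.Orb Pool.Agent.Helper10.Abund

universe u v

theorem measurableSet_inter_preimage {n : ℕ} {V F : Set (Fin n → ℂ)} (hV : IsOpen V)
    {φ : (Fin n → ℂ) → (Fin n → ℂ)} (hφ : ContinuousOn φ V) (hF : MeasurableSet F) :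
    MeasurableSet (V ∩ φ ⁻¹' F) := by
  classical
  have h1 : Measurable (V.piecewise φ (fun _ => 0)) :=
    hφ.measurable_piecewise continuousOn_const hV.measurableSet
  have h2 : V ∩ φ ⁻¹' F = V ∩ (V.piecewise φ (fun _ => 0)) ⁻¹' F := by
    ext z
    simp only [Set.mem_inter_iff, Set.mem_preimage]
    constructor
    · rintro ⟨hz, h⟩
      exact ⟨hz, by rwa [Set.piecewise_eq_of_mem _ _ _ hz]⟩
    · rintro ⟨hz, h⟩
      exact ⟨hz, by rwa [Set.piecewise_eq_of_mem _ _ _ hz] at h⟩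
  rw [h2]
  exact hV.measurableSet.inter (h1 hF)

theorem stmtMassModOfFund : StmtMassModOfFund.{v} := by
  classical
  intro n m hm Γ _ W _ hholo H F hF hFW h hhH hcov huniq f hf hmass hinv
  have hq : (0 : ℝ) ≤ 2 / (m : ℝ) := by positivity
  set q : ℝ := 2 / (m : ℝ) with hqdef
  set Mass : ℝ≥0∞ := ∫⁻ v in F, ENNReal.ofReal (‖f v‖ ^ q) with hMass
  refine ⟨Mass.toReal, ?_⟩
  intro N A V ψ hA hV hAV hψ hdisj
  rw [ENNReal.ofReal_toReal hmass.ne]
  -- the function on `ℂⁿ`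
  set G : (Fin n → ℂ) → ℝ≥0∞ := F.indicator (fun v => ENNReal.ofReal (‖f v‖ ^ q)) with hG
  have hGm : Measurable G := by
    have h1 : Measurable ((W : Set (Fin n → ℂ)).indicator
        (fun v => ENNReal.ofReal (‖f v‖ ^ q))) := by
      rw [← Set.piecewise_eq_indicator]
      refine ContinuousOn.measurable_piecewise ?_ continuousOn_const W.2.measurableSet
      refine ENNReal.continuous_ofReal.comp_continuousOn ?_
      exact hf.continuousOn.norm.rpow_const (fun x _ => Or.inr hq)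
    have h2 : G = F.indicator ((W : Set (Fin n → ℂ)).indicator
        (fun v => ENNReal.ofReal (‖f v‖ ^ q))) := by
      rw [Set.indicator_indicator, Set.inter_eq_left.mpr hFW]
    rw [h2]
    exact h1.indicator hF
  have hGint : ∫⁻ w in Set.univ, G w = Mass := by
    rw [setLIntegral_univ, hG, lintegral_indicator hF]
  -- the maps
  set φ : Fin N → ℕ → (Fin n → ℂ) → (Fin n → ℂ) := fun i j z => ((h j • ψ i z : W) : Fin n → ℂ)
    with hφ
  have hψa : ∀ i, ∀ z ∈ V i, MDifferentiableAt 𝓘(ℂ, Fin n → ℂ) 𝓘(ℂ, Fin n → ℂ) (ψ i) z :=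
    fun i z hz => (hψ i z hz).mdifferentiableAt ((hV i).mem_nhds hz)
  have hga : ∀ i j, ∀ z ∈ V i, MDifferentiableAt 𝓘(ℂ, Fin n → ℂ) 𝓘(ℂ, Fin n → ℂ)
      ((fun x : W => h j • x) ∘ ψ i) z := fun i j z hz => (hholo (h j) (ψ i z)).comp z (hψa i z hz)
  have hφa : ∀ i j, ∀ z ∈ V i, MDifferentiableAt 𝓘(ℂ, Fin n → ℂ) 𝓘(ℂ, Fin n → ℂ) (φ i j) z :=
    fun i j z hz => (mdifferentiable_val W _).comp z (hga i j z hz)
  have hφd : ∀ i j, DifferentiableOn ℂ (φ i j) (V i) := fun i j z hz =>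
    (mdifferentiableAt_iff_differentiableAt.mp (hφa i j z hz)).differentiableWithinAt
  have hjac : ∀ i j, ∀ z ∈ V i, (fderiv ℂ (φ i j) z).det =
      jac n (fun x : W => h j • x) (ψ i z) * jac n (ψ i) z := by
    intro i j z hz
    have h3 : φ i j = Subtype.val ∘ ((fun x : W => h j • x) ∘ ψ i) := rfl
    rw [← jac_eq_fderiv, h3, jac_comp (mdifferentiable_val W _) (hga i j z hz), jac_val, one_mul,
      jac_comp (hholo (h j) (ψ i z)) (hψa i z hz)]
  -- the pieces
  set S : Fin N → ℕ → Set (Fin n → ℂ) := fun i j => A i ∩ (V i ∩ φ i j ⁻¹' F) with hS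
  have hSm : ∀ i j, MeasurableSet (S i j) := fun i j =>
    (hA i).inter (measurableSet_inter_preimage (hV i) (hφd i j).continuousOn hF)
  set B : Fin N → ℕ → Set (Fin n → ℂ) := fun i => disjointed (S i) with hB
  have hBm : ∀ i j, MeasurableSet (B i j) := fun i j => MeasurableSet.disjointed (hSm i) j
  have hBS : ∀ i j, B i j ⊆ S i j := fun i j => disjointed_subset (S i) j
  have hBA : ∀ i j, B i j ⊆ A i := fun i j => (hBS i j).trans Set.inter_subset_left
  have hBd : ∀ i, Pairwise (Function.onFun Disjoint (B i)) := fun i => disjoint_disjointed (S i)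
  have hBU : ∀ i, A i = ⋃ j, B i j := by
    intro i
    rw [hB]
    simp only
    rw [iUnion_disjointed]
    apply Set.Subset.antisymm
    · intro z hz
      obtain ⟨j, hj⟩ := hcov (ψ i z)
      exact Set.mem_iUnion.mpr ⟨j, hz, hAV i hz, hj⟩
    · exact Set.iUnion_subset fun j => Set.inter_subset_left
  -- the integrand on one piece
  have hint : ∀ i j, ∀ z ∈ B i j,
      ENNReal.ofReal (‖f (ψ i z).1 * jac n (ψ i) z ^ m‖ ^ q) =
      G (φ i j z) * ENNReal.ofReal (‖(fderiv ℂ (φ i j) z).det‖ ^ 2) := by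
    intro i j z hz
    have hzS := hBS i j hz
    have hzV : z ∈ V i := hAV i hzS.1
    have hzF : φ i j z ∈ F := hzS.2.2
    have e1 := hinv.2 (h j) (hhH j) (ψ i z)
    simp only at e1
    have e2 : f (ψ i z).1 * jac n (ψ i) z ^ m =
        f (φ i j z) * ((fderiv ℂ (φ i j) z).det) ^ m := by
      rw [hjac i j z hzV, mul_pow, ← mul_assoc, ← e1]
    rw [e2, hG, Set.indicator_of_mem hzF, hqdef, norm_mul_pow_rpow hm,
      ENNReal.ofReal_mul (by positivity)]
  have hpiece : ∀ i, ∫⁻ z in A i, ENNReal.ofReal (‖f (ψ i z).1 * jac n (ψ i) z ^ m‖ ^ q) =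
      ∑' j, ∫⁻ z in B i j, G (φ i j z) * ENNReal.ofReal (‖(fderiv ℂ (φ i j) z).det‖ ^ 2) := by
    intro i
    conv_lhs => rw [hBU i]
    rw [lintegral_iUnion (hBm i) (hBd i)]
    exact tsum_congr fun j => setLIntegral_congr_fun (hBm i j) fun z hz => hint i j z hz
  have e3 : ∑ i, ∫⁻ z in A i, ENNReal.ofReal (‖f (ψ i z).1 * jac n (ψ i) z ^ m‖ ^ q) =
      ∑' j, ∑ i, ∫⁻ z in B i j, G (φ i j z) * ENNReal.ofReal (‖(fderiv ℂ (φ i j) z).det‖ ^ 2) := by
    rw [Summable.tsum_finsetSum (fun i _ => ENNReal.summable)]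
    exact Finset.sum_congr rfl fun i _ => hpiece i
  rw [e3]
  refine ENNReal.tsum_le_of_sum_range_le fun J => ?_
  have key := Helper36.Abund.lintegral_comp_le (ι := Fin N × Fin J) (N := 1)
    (A := fun x => B x.1 x.2) (fun x => hBm x.1 x.2) (U := fun x => V x.1) (fun x => hV x.1)
    (fun x => (hBA x.1 x.2).trans (hAV x.1)) (h := fun x => φ x.1 x.2)
    (fun x => hφd x.1 x.2) (by
      intro w
      rw [Nat.cast_one, Set.encard_le_one_iff]
      rintro ⟨⟨i, j⟩, z⟩ ⟨⟨i', j'⟩, z'⟩ ⟨hz, hzw⟩ ⟨hz', hzw'⟩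
      simp only at hz hzw hz' hzw'
      have h4 : h j • ψ i z = h j' • ψ i' z' := Subtype.ext (hzw.trans hzw'.symm)
      have h5 : ψ i' z' = ((h j')⁻¹ * h j) • ψ i z := by
        rw [mul_smul, h4, inv_smul_smul]
      obtain ⟨h6, h7⟩ := hdisj i i' z (hBA _ _ hz) z' (hBA _ _ hz') _
        (H.mul_mem (H.inv_mem (hhH j')) (hhH j)) h5
      subst h6
      subst h7
      have h8 : j = j' := by
        by_contra hne
        have h9 : (j : ℕ) ≠ (j' : ℕ) := fun h => hne (Fin.ext h)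
        exact Set.disjoint_left.1 (hBd i h9) hz hz'
      rw [h8]) MeasurableSet.univ (fun _ _ _ => Set.mem_univ _) hGm
  rw [Nat.cast_one, one_mul, hGint, Fintype.sum_prod_type_right] at key
  rw [Finset.sum_range (fun j => ∑ i, ∫⁻ z in B i j, G (φ i j z) *
    ENNReal.ofReal (‖(fderiv ℂ (φ i j) z).det‖ ^ 2))]
  exact key

end Pool.Agent.Helper36.Orb
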